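import Pool.Agent.U455.ASG

/-!
# The gaps of dense sets of multipliers `n` with `n q + r` prime, uniformly in `q` and `r`

The question concerns the `n < 2 (p + 1)` with `2 p n + 1` prime, that is `q = 2 p`, `r = 1`. The expected number of the `n`
of an interval `(a, a + X]` with `n q + r` prime is of the order `X V` when `n q + r` is at most a power of `X`, where
`V = ∏ (1 - 1 / p)` over the primes `p ≤ X` not dividing `q`.

For every `k ≥ 1` and `δ > 0` there are `h`, `M ≥ 1` and `κ, ρ, K, ε > 0`, depending on `k` and `δ` ONLY, such that for all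
large `X`, ALL coprime `q ≥ 1` and `r`, ALL `a` and EVERY set `Q` of at least `δ X V` integers `n` of `(a, a + X]` with
`n q + r > X` prime:

* at least `ρ V⁻ᵏ` of the vectors `g ∈ ℕᵏ` with entries `≤ K / V` are the vectors of the `k` CONSECUTIVE gaps of at least
  `κ X Vᵏ⁺¹` runs of `k + 1` consecutive elements of `Q`;
* if `V ≤ ε`, then EVERY `t ∈ (M ℤ)ᵏ` is a sum of `u` such vectors minus a sum of `v` such vectors with
  `u + v ≤ h (1 + V ∑ |t i|)` (the smallest possible order of the number of the terms).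

Proof: few gaps are long; upper bound sieve with arbitrary classes, mean value of the collision weights over very short
shifts (`Pool.Agent.U455.ASG.avG`), second moment over the gap vectors (`Pool.Agent.U455.ASG.popG`), and a local form of
Schnirelmann's theorem on a dense line in a coordinate direction (`Pool.Agent.U455.GVV.lattice`).
-/

set_option autoImplicit false

namespace Pool.Agent.Results.MP_2f88e5_nt.DenseSetsOfMultipliers

open Filter Finset

/-- the product of `1 - 1 / p` over the primes `p ≤ X` which do not divide `q` -/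
noncomputable def V (q X : ℕ) : ℝ := ∏ p ∈ (Icc 1 X).filter (fun p => p.Prime ∧ ¬ p ∣ q), (1 - 1 / (p : ℝ))

/-- the sum of the `g j`, `j < i` -/
def before {k : ℕ} (g : Fin k → ℕ) (i : Fin k) : ℕ := ∑ j : Fin k, if j < i then g j else 0

open Classical in
/-- the number of the elements `n` of `Q` for which `n`, `n + g 0`, `n + g 0 + g 1`, ..., `n + g 0 + ... + g (k - 1)` are
`k + 1` consecutive elements of `Q` -/
noncomputable def runCount {k : ℕ} (Q : Finset ℕ) (g : Fin k → ℕ) : ℕ :=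
  (Q.filter (fun n => ∀ i, n + before g i + g i ∈ Q ∧ ∀ m ∈ Q, n + before g i < m → n + before g i + g i ≤ m)).card

/-- the class modulo `p` for which `p` divides `n q + r` -/
def cl (q r p : ℕ) : Finset ℕ := (range p).filter (fun c => p ∣ c * q + r)

lemma mem_cl {q r p : ℕ} (hp : 0 < p) (n : ℕ) : n % p ∈ cl q r p ↔ p ∣ n * q + r := by
  unfold cl
  rw [mem_filter, mem_range]
  have h2 : n % p * q + r ≡ n * q + r [MOD p] := ((Nat.mod_modEq n p).mul_right q).add_right r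
  have h3 : p ∣ n % p * q + r ↔ p ∣ n * q + r := h2.dvd_iff (dvd_refl p)
  rw [h3]
  exact ⟨fun h => h.2, fun h => ⟨Nat.mod_lt _ hp, h⟩⟩

lemma cl_unique {q r p : ℕ} (hp : p.Prime) (hqr : Nat.Coprime q r) {c c' : ℕ} (hc : c ∈ cl q r p) (hc' : c' ∈ cl q r p) :
    c = c' := by
  unfold cl at hc hc'
  rw [mem_filter, mem_range] at hc hc'
  have h1 : (c * q + r) ≡ (c' * q + r) [MOD p] :=
    ((Nat.modEq_zero_iff_dvd.2 hc.2)).trans (Nat.modEq_zero_iff_dvd.2 hc'.2).symm
  have h2 : c * q ≡ c' * q [MOD p] := Nat.ModEq.add_right_cancel' r h1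
  have hpq : ¬ p ∣ q := by
    intro h
    have h3 : p ∣ r := (Nat.dvd_add_right (h.mul_left c)).1 hc.2
    have h4 : p ∣ Nat.gcd q r := Nat.dvd_gcd h h3
    rw [Nat.Coprime] at hqr
    rw [hqr] at h4
    exact hp.one_lt.ne' (Nat.dvd_one.1 h4)
  have h3 : Nat.gcd p q = 1 := (Nat.Prime.coprime_iff_not_dvd hp).2 hpq
  have h4 : c ≡ c' [MOD p] := Nat.ModEq.cancel_right_of_coprime h3 h2
  have h5 : c % p = c' % p := h4
  rwa [Nat.mod_eq_of_lt hc.1, Nat.mod_eq_of_lt hc'.1] at h5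

lemma cl_card {q r p : ℕ} (hp : p.Prime) (hqr : Nat.Coprime q r) : (cl q r p).card = if p ∣ q then 0 else 1 := by
  classical
  split_ifs with h
  · rw [card_eq_zero, Finset.eq_empty_iff_forall_notMem]
    intro c hc
    unfold cl at hc
    rw [mem_filter] at hc
    have h3 : p ∣ r := (Nat.dvd_add_right (h.mul_left c)).1 hc.2
    have h4 : p ∣ Nat.gcd q r := Nat.dvd_gcd h h3
    rw [Nat.Coprime] at hqr
    rw [hqr] at h4
    exact hp.one_lt.ne' (Nat.dvd_one.1 h4)
  · obtain ⟨u, -, hu⟩ := Nat.exists_mul_mod_eq_one_of_coprime ((Nat.Prime.coprime_iff_not_dvd hp).2 h).symm hp.one_lt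
    rw [card_eq_one]
    have hr : r % p < p := Nat.mod_lt _ hp.pos
    refine ⟨(u * (p - r % p)) % p, ?_⟩
    have hmem : (u * (p - r % p)) % p ∈ cl q r p := by
      rw [mem_cl hp.pos]
      have h1 : u * (p - r % p) * q + r ≡ 0 [MOD p] := by
        have h2 : q * u ≡ 1 [MOD p] := by
          show q * u % p = 1 % p
          rw [hu, Nat.mod_eq_of_lt hp.one_lt]
        calc u * (p - r % p) * q + r = (q * u) * (p - r % p) + r := by ring
          _ ≡ 1 * (p - r % p) + r % p [MOD p] := (h2.mul_right _).add (Nat.mod_modEq r p).symm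
          _ = p := by omega
          _ ≡ 0 [MOD p] := by
              show p % p = 0 % p
              simp
      exact (Nat.modEq_zero_iff_dvd).1 h1
    ext c
    rw [mem_singleton]
    exact ⟨fun hc => cl_unique hp hqr hc hmem, fun hc => by rw [hc]; exact hmem⟩

theorem result (k : ℕ) (hk : 1 ≤ k) (δ : ℝ) (hδ : 0 < δ) :
    ∃ h M : ℕ, 1 ≤ M ∧ ∃ κ ρ K ε : ℝ, 0 < κ ∧ 0 < ρ ∧ 0 < K ∧ 0 < ε ∧ ∃ X₀ : ℕ, ∀ X : ℕ, X₀ ≤ X →
    ∀ q r a : ℕ, 1 ≤ q → Nat.Coprime q r → ∀ Q : Finset ℕ, Q ⊆ Ioc a (a + X) →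
      (∀ n ∈ Q, (n * q + r).Prime ∧ X < n * q + r) → δ * (X * V q X) ≤ Q.card →
      (∃ G : Finset (Fin k → ℕ), ρ ≤ (G.card : ℝ) * V q X ^ k ∧
        ∀ g ∈ G, (∀ i, 1 ≤ g i ∧ (g i : ℝ) * V q X ≤ K) ∧ κ * (X * V q X ^ (k + 1)) ≤ runCount Q g) ∧
      (V q X ≤ ε → ∀ t : Fin k → ℤ, (∀ i, (M : ℤ) ∣ t i) → ∃ l l' : List (Fin k → ℕ),
        ((l.length + l'.length : ℕ) : ℝ) ≤ h * (1 + V q X * ∑ i, |(t i : ℝ)|) ∧
        (∀ g ∈ l ++ l', (∀ i, 1 ≤ g i ∧ (g i : ℝ) * V q X ≤ K) ∧ κ * (X * V q X ^ (k + 1)) ≤ runCount Q g) ∧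
        ∀ i, t i = (l.map (fun g => (g i : ℤ))).sum - (l'.map (fun g => (g i : ℤ))).sum) := by
  classical
  obtain ⟨h, M, hM, c, ρ, K, ε, hc, hρ, hK, hε, X₀, hmain⟩ :=
    Pool.Agent.U455.ASG.main 1 k 1 hk 1 δ one_pos le_rfl hδ
  refine ⟨h, M, hM, c, ρ, K, ε, hc, hρ, hK, hε, X₀, fun X hX q r a hq hqr Q hQ hQp hQc => ?_⟩
  have hadm : Pool.Agent.X58.IV.Adm 1 (cl q r) := by
    intro p hp
    have h1 : (cl q r p).card ≤ 1 := by
      rw [cl_card hp hqr]
      split_ifs <;> omega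
    refine ⟨h1, lt_of_le_of_lt h1 hp.one_lt, fun c hc => ?_⟩
    unfold cl at hc
    exact mem_range.1 (mem_filter.1 hc).1
  have hslow : Pool.Agent.U455.ASG.Slow 1 (cl q r) := by
    intro g hg
    refine ⟨g, hg, by rw [one_mul, pow_one], ?_⟩
    rintro p hp ⟨c, hc, c', hc', hd⟩
    rw [cl_unique hp hqr hc hc', sub_self, sub_zero] at hd
    exact_mod_cast hd
  have hV : V q X = Pool.Agent.Y843.HS.VV (cl q r) 0 X := by
    unfold V Pool.Agent.Y843.HS.VV Pool.Agent.Y843.HS.Pr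
    have e1 : (Icc 1 X).filter (fun p => p.Prime ∧ ¬ p ∣ q) = ((Ioc 0 X).filter Nat.Prime).filter (fun p => ¬ p ∣ q) := by
      rw [filter_filter]
      congr 1
    rw [e1, prod_filter]
    apply prod_congr rfl
    intro p hp
    rw [mem_filter] at hp
    rw [cl_card hp.2 hqr]
    by_cases h1 : p ∣ q
    · rw [if_neg (not_not.2 h1), if_pos h1]
      simp
    · rw [if_pos h1, if_neg h1]
      simp
  have hQ' : Q ⊆ Pool.Agent.X58.IV.Sift (cl q r) 1 a X := by
    intro n hn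
    unfold Pool.Agent.X58.IV.Sift
    rw [mem_filter]
    refine ⟨hQ hn, fun p hp hpX hmem => ?_⟩
    rw [mem_cl hp.pos] at hmem
    rw [Real.rpow_one] at hpX
    have h2 : p ≤ X := by exact_mod_cast hpX
    have h3 : p = n * q + r := (Nat.prime_dvd_prime_iff_eq hp (hQp n hn).1).1 hmem
    have h4 := (hQp n hn).2
    omega
  have hbef : ∀ (g : Fin k → ℕ) (i : Fin k), Pool.Agent.R527.LV.ps g i.castSucc = before g i := by
    intro g i
    unfold Pool.Agent.R527.LV.ps before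
    rfl
  have hg : ∀ g : Fin k → ℕ, ((Q.filter (Pool.Agent.U455.GVV.CN Q g)).card : ℝ) = runCount Q g := by
    intro g
    unfold runCount Pool.Agent.U455.GVV.CN Pool.Agent.U455.CGW.Nx
    simp only [hbef]
  rw [hV] at hQc ⊢
  obtain ⟨h1, h2⟩ := hmain X a hX (cl q r) hadm hslow Q hQ' hQc
  simp only [hg] at h1 h2
  refine ⟨h1, fun hVε t hMt => ?_⟩
  obtain ⟨n, hn, l, l', g1, g2, g3, g4⟩ := h2 hVε t hMt
  refine ⟨l, l', le_trans ?_ hn, fun g hg' => ?_, g4⟩
  · exact_mod_cast g1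
  · rcases List.mem_append.1 hg' with hg' | hg'
    · exact g2 g hg'
    · exact g3 g hg'

end Pool.Agent.Results.MP_2f88e5_nt.DenseSetsOfMultipliers
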