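import Pool.Agent.U996.LM.Mult

/-!
# Primes `⌊α k p⌋ + h` with small multipliers `k`

The question is the case `α = 2`, `h = 1`. For almost every real `α > 0` and all integers `h`: for every `δ > 0` nearly
all primes `p` of any given set of primes (all large primes of a sparse set) have a multiplier `k ≤ p ^ δ` with
`⌊α k p⌋ + h` prime and `p ∤ k`; for all `M` between `p ^ δ` and `p ^ (1 / δ)` the number of the multipliers `k ≤ M` is
asymptotically `M / log (M p)`. The multipliers may be restricted to arbitrary sets `S q`, and `p` may be replaced by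
any natural number `q`.
-/

set_option autoImplicit false

namespace Pool.Agent.Results.MP_2f88e5_nt.MetricMultipliers

open Finset MeasureTheory Filter Topology

/-- `z` is a (positive) prime number -/
def IsPrime (z : ℤ) : Prop := z.toNat.Prime

/-- the number of the multipliers `k ∈ S`, `1 ≤ k ≤ M`, such that `⌊α k q⌋ + h` is prime -/
noncomputable def count (α : ℝ) (h : ℤ) (S : Set ℕ) (q M : ℕ) : ℕ :=
  Set.ncard {k : ℕ | 1 ≤ k ∧ k ≤ M ∧ k ∈ S ∧ IsPrime (⌊α * (k * q)⌋ + h)}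

/-- the number of the `k ∈ S` with `1 ≤ k ≤ M` -/
noncomputable def size (S : Set ℕ) (M : ℕ) : ℕ := Set.ncard {k : ℕ | 1 ≤ k ∧ k ≤ M ∧ k ∈ S}

/-- the density of the primes: `1 / log z` if `z ≥ 3`, and `0` otherwise -/
noncomputable def rho (z : ℤ) : ℝ := if 3 ≤ z then 1 / Real.log z else 0

open Classical in
/-- the expected number of the multipliers -/
noncomputable def expected (α : ℝ) (h : ℤ) (S : Set ℕ) (q M : ℕ) : ℝ :=
  ∑ k ∈ (Icc 1 M).filter (fun k => k ∈ S), rho (⌊α * (k * q)⌋ + h)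

/-- the members of `𝒬` in `[2 ^ i, 2 ^ (i + 1))` -/
def block (𝒬 : Set ℕ) (i : ℕ) : Set ℕ := {n | n ∈ 𝒬 ∧ 2 ^ i ≤ n ∧ n < 2 ^ (i + 1)}

/-- `E n` is true for nearly all members `n` of `𝒬`: for all `K` and all large `i` at most `|block| / i ^ K` members `n`
of the block of `𝒬` in `[2 ^ i, 2 ^ (i + 1))` violate `E n`; and if the blocks have at most `i ^ A` members (for some
`A` and all large `i`), then all large `n ∈ 𝒬` satisfy `E n` -/
def Nearly (𝒬 : Set ℕ) (E : ℕ → Prop) : Prop :=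
  (∀ K : ℕ, ∀ᶠ i : ℕ in atTop,
    (Set.ncard {n | n ∈ block 𝒬 i ∧ ¬ E n} : ℝ) ≤ Set.ncard (block 𝒬 i) / (i : ℝ) ^ K) ∧
  ((∃ A : ℕ, ∀ᶠ i : ℕ in atTop, Set.ncard (block 𝒬 i) ≤ i ^ A) → ∀ᶠ n : ℕ in atTop, n ∈ 𝒬 → E n)

open Pool.Agent.U996.UW Pool.Agent.U996.GB Pool.Agent.U996.LM

lemma block_eq (𝒬 : Set ℕ) (i : ℕ) : block 𝒬 i = ((dy 𝒬 i : Finset ℕ) : Set ℕ) := by
  classical
  ext n
  unfold block dy
  simp only [Set.mem_ofPred_eq, Finset.coe_filter, Finset.mem_Ico]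
  tauto

lemma block_card (𝒬 : Set ℕ) (i : ℕ) : Set.ncard (block 𝒬 i) = (dy 𝒬 i).card := by
  rw [block_eq, Set.ncard_coe_finset]

lemma dy_le {𝒬 : Set ℕ} {i n : ℕ} (hn : n ∈ dy 𝒬 i) : i ≤ n := by
  classical
  unfold dy at hn
  rw [mem_filter, mem_Ico] at hn
  have h7 : i < 2 ^ i := Nat.lt_two_pow_self
  omega

open Classical in
/-- from exceptional sets to `Nearly` -/
lemma nearly_gen (𝒬 : Set ℕ) (Bad : ℕ → ℕ → Prop)
    (h : ∀ K : ℕ, ∀ᶠ i : ℕ in atTop, (((dy 𝒬 i).filter fun n : ℕ => Bad K n).card : ℝ) * i ^ K ≤ (dy 𝒬 i).card)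
    (hmono : ∀ᶠ n : ℕ in atTop, ∀ K K' : ℕ, K ≤ K' → Bad K n → Bad K' n) (D : ℕ) (E : ℕ → Prop)
    (hE : ∀ᶠ n : ℕ in atTop, ¬ Bad D n → E n) : Nearly 𝒬 E := by
  have key : ∀ K : ℕ, ∀ᶠ i : ℕ in atTop,
      (((dy 𝒬 i).filter fun n : ℕ => ¬ E n).card : ℝ) * i ^ K ≤ (dy 𝒬 i).card := by
    intro K
    obtain ⟨n1, hn1⟩ := (hE.and hmono).exists_forall_of_atTop
    filter_upwards [h (K + D), eventually_ge_atTop n1, eventually_ge_atTop 1] with i h1 h3 h4
    have hi1 : (1 : ℝ) ≤ i := by exact_mod_cast h4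
    refine le_trans ?_ h1
    refine mul_le_mul ?_ (pow_le_pow_right₀ hi1 (by omega)) (by positivity) (Nat.cast_nonneg _)
    have hsub : ((dy 𝒬 i).filter fun n : ℕ => ¬ E n) ⊆ (dy 𝒬 i).filter fun n : ℕ => Bad (K + D) n := by
      intro n hn
      rw [mem_filter] at hn ⊢
      obtain ⟨g1, g2⟩ := hn1 n (h3.trans (dy_le hn.1))
      refine ⟨hn.1, g2 D _ (by omega) ?_⟩
      by_contra hcon
      exact hn.2 (g1 hcon)
    exact_mod_cast Finset.card_le_card hsub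
  refine ⟨fun K => ?_, ?_⟩
  · filter_upwards [key K, eventually_ge_atTop 1] with i hi hi1
    have hi0 : (0 : ℝ) < i := by exact_mod_cast hi1
    have e1 : {n | n ∈ block 𝒬 i ∧ ¬ E n} = (((dy 𝒬 i).filter fun n : ℕ => ¬ E n : Finset ℕ) : Set ℕ) := by
      ext n
      rw [block_eq]
      simp only [Set.mem_ofPred_eq, Finset.coe_filter, Finset.mem_coe]
    rw [e1, Set.ncard_coe_finset, block_card, le_div_iff₀ (by positivity)]
    exact hi
  · rintro ⟨A, hA⟩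
    obtain ⟨i1, hi1⟩ := ((key (A + 1)).and (hA.and (eventually_ge_atTop 2))).exists_forall_of_atTop
    filter_upwards [eventually_ge_atTop (2 ^ i1), eventually_ge_atTop 1] with n hn hn1 hnN
    obtain ⟨i, hi⟩ : ∃ i, i = Nat.log 2 n := ⟨_, rfl⟩
    have hii : i1 ≤ i := by
      rw [hi]
      exact Nat.le_log_of_pow_le (by norm_num) hn
    obtain ⟨c1, c2, c3⟩ := hi1 i hii
    by_contra hcon
    have hmem : n ∈ (dy 𝒬 i).filter fun n : ℕ => ¬ E n := by
      rw [mem_filter]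
      refine ⟨?_, hcon⟩
      unfold dy
      rw [mem_filter, mem_Ico, hi]
      exact ⟨⟨Nat.pow_log_le_self 2 (by omega), Nat.lt_pow_succ_log_self (by norm_num) n⟩, hnN⟩
    have h6 : (1 : ℝ) ≤ (((dy 𝒬 i).filter fun n : ℕ => ¬ E n).card : ℝ) := by
      exact_mod_cast Finset.card_pos.2 ⟨n, hmem⟩
    have hi2 : (2 : ℝ) ≤ i := by exact_mod_cast c3
    have h7 : ((dy 𝒬 i).card : ℝ) ≤ (i : ℝ) ^ A := by
      rw [block_card] at c2
      exact_mod_cast c2
    have h8 : (i : ℝ) ^ (A + 1) ≤ (i : ℝ) ^ A := by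
      calc (i : ℝ) ^ (A + 1) = 1 * (i : ℝ) ^ (A + 1) := (one_mul _).symm
        _ ≤ _ := mul_le_mul_of_nonneg_right h6 (by positivity)
        _ ≤ _ := c1.trans h7
    have h9 : (0 : ℝ) < (i : ℝ) ^ A := by positivity
    rw [pow_succ] at h8
    nlinarith

lemma nearly_mono (𝒬 : Set ℕ) (E E' : ℕ → Prop) (h : Nearly 𝒬 E) (hE : ∀ᶠ n : ℕ in atTop, E n → E' n) :
    Nearly 𝒬 E' := by
  refine ⟨fun K => ?_, fun hA => ?_⟩
  · obtain ⟨n1, hn1⟩ := hE.exists_forall_of_atTop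
    filter_upwards [h.1 K, eventually_ge_atTop n1] with i h1 h2
    refine le_trans ?_ h1
    have hfin : (block 𝒬 i).Finite := by
      rw [block_eq]
      exact Finset.finite_toSet _
    have h3 : Set.ncard {n | n ∈ block 𝒬 i ∧ ¬ E' n} ≤ Set.ncard {n | n ∈ block 𝒬 i ∧ ¬ E n} := by
      refine Set.ncard_le_ncard ?_ (hfin.subset fun n hn => hn.1)
      intro n hn
      refine ⟨hn.1, fun hc => hn.2 (hn1 n ?_ hc)⟩
      have h4 : n ∈ dy 𝒬 i := by
        have := hn.1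
        rw [block_eq] at this
        exact_mod_cast this
      exact h2.trans (dy_le h4)
    exact_mod_cast h3
  · filter_upwards [h.2 hA, hE] with n h1 h2 h3
    exact h2 (h1 h3)

open Classical in
/-- the weights -/
noncomputable def W (S : ℕ → Set ℕ) (q k : ℕ) : ℝ := if k ∈ S q then 1 else 0

lemma W_nonneg (S : ℕ → Set ℕ) (q k : ℕ) : 0 ≤ W S q k := by
  unfold W
  split_ifs <;> norm_num

lemma W_le (S : ℕ → Set ℕ) (q k : ℕ) : W S q k ≤ 1 := by
  unfold W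
  split_ifs <;> norm_num

lemma W_abs (S : ℕ → Set ℕ) (q k : ℕ) : |W S q k| ≤ 1 := by
  rw [abs_of_nonneg (W_nonneg S q k)]
  exact W_le S q k

open Classical in
lemma card_eq (S : ℕ → Set ℕ) (q M : ℕ) (F : ℕ → Prop) :
    (Set.ncard {k : ℕ | 1 ≤ k ∧ k ≤ M ∧ k ∈ S q ∧ F k} : ℝ) =
      ∑ k ∈ Icc 1 M, W S q k * (if F k then 1 else 0) := by
  have e1 : {k : ℕ | 1 ≤ k ∧ k ≤ M ∧ k ∈ S q ∧ F k} =
      (((Icc 1 M).filter fun k => k ∈ S q ∧ F k : Finset ℕ) : Set ℕ) := by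
    ext k
    simp only [Set.mem_ofPred_eq, Finset.coe_filter, Finset.mem_Icc]
    tauto
  rw [e1, Set.ncard_coe_finset, Finset.card_filter]
  push_cast
  refine Finset.sum_congr rfl fun k _ => ?_
  unfold W
  by_cases h1 : k ∈ S q
  · by_cases h2 : F k
    · simp [h1, h2]
    · simp [h1, h2]
  · simp [h1]

lemma size_eq (S : ℕ → Set ℕ) (q M : ℕ) : (size (S q) M : ℝ) = ∑ k ∈ Icc 1 M, W S q k := by
  have h1 := card_eq S q M (fun _ => True)
  simp only [and_true, if_true, mul_one] at h1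
  exact h1

lemma size_le (S : Set ℕ) (M : ℕ) : size S M ≤ M := by
  have h1 := size_eq (fun _ => S) 0 M
  have h2 : ∑ k ∈ Icc 1 M, W (fun _ => S) 0 k ≤ ∑ _k ∈ Icc 1 M, (1 : ℝ) := sum_le_sum fun k _ => W_le _ _ _
  rw [Finset.sum_const, Nat.card_Icc, nsmul_eq_mul, mul_one, Nat.add_sub_cancel, ← h1] at h2
  exact_mod_cast h2

lemma count_eq (α : ℝ) (h : ℤ) (S : ℕ → Set ℕ) (q M : ℕ) :
    (count α h (S q) q M : ℝ) = ∑ k ∈ Icc 1 M, W S q k * pz (⌊α * (k * q)⌋ + h) := by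
  have h1 := card_eq S q M (fun k => IsPrime (⌊α * (k * q)⌋ + h))
  unfold count
  rw [h1]
  refine Finset.sum_congr rfl fun k _ => ?_
  unfold IsPrime pz
  congr

lemma expected_eq (α : ℝ) (h : ℤ) (S : ℕ → Set ℕ) (q M : ℕ) :
    expected α h (S q) q M = ∑ k ∈ Icc 1 M, W S q k * rz (⌊α * (k * q)⌋ + h) := by
  unfold expected
  rw [Finset.sum_filter]
  refine Finset.sum_congr rfl fun k _ => ?_
  unfold W rho rz
  split_ifs <;> simp

lemma er_sub (α : ℝ) (h : ℤ) (S : ℕ → Set ℕ) (q M : ℕ) :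
    (count α h (S q) q M : ℝ) - expected α h (S q) q M = er α h (W S q) q M := by
  rw [count_eq, expected_eq, ← Finset.sum_sub_distrib]
  unfold er
  exact Finset.sum_congr rfl fun k _ => by ring

/-- the density along the range of the multipliers -/
lemma rz_close (α : ℝ) (hα : 0 < α) (h : ℤ) (D : ℕ) (ε : ℝ) (hε : 0 < ε) :
    ∀ᶠ q : ℕ in atTop, ∀ M k : ℕ, 1 ≤ k → k ≤ M → (M : ℝ) / Real.log q ^ D ≤ k →
      |rz (⌊α * (k * q)⌋ + h) * Real.log (M * q) - 1| ≤ ε := by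
  obtain ⟨H, hH⟩ : ∃ H : ℝ, H = |(h : ℝ)| + 1 := ⟨_, rfl⟩
  obtain ⟨c, hc⟩ : ∃ c : ℝ, c = Real.log 2 + |Real.log α| := ⟨_, rfl⟩
  have hc0 : 0 ≤ c := by
    rw [hc]
    have := Real.log_pos (show (1 : ℝ) < 2 by norm_num)
    positivity
  have h1 : Tendsto (fun q : ℕ => (c + D * Real.log (Real.log q)) / Real.log q) atTop (𝓝 0) := by
    have h2 := (nlog.const_div_atTop c).add (loglog_lim.const_mul (D : ℝ))
    rw [mul_zero, add_zero] at h2
    refine h2.congr fun q => ?_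
    ring
  have h3 : ∀ᶠ q : ℕ in atTop, (c + D * Real.log (Real.log q)) / Real.log q < ε / (1 + ε) :=
    h1.eventually (gt_mem_nhds (by positivity))
  have h4 : ∀ᶠ q : ℕ in atTop, 2 * H + 6 ≤ α * q :=
    (tendsto_natCast_atTop_atTop.const_mul_atTop hα).eventually_ge_atTop _
  filter_upwards [h3, h4, nlog.eventually_ge_atTop 3, eventually_ge_atTop 1] with q g1 g2 g3 g4 M k hk1 hk2 hk3
  have hq0 : (0 : ℝ) < q := by exact_mod_cast g4
  have hk0 : (1 : ℝ) ≤ k := by exact_mod_cast hk1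
  have hkM : (k : ℝ) ≤ M := by exact_mod_cast hk2
  have hM0 : (0 : ℝ) < M := by linarith
  have hL0 : 0 < Real.log q := by linarith
  obtain ⟨x, hx⟩ : ∃ x : ℝ, x = α * (k * q) := ⟨_, rfl⟩
  have hx1 : 2 * H + 6 ≤ x := by
    rw [hx]
    have : α * q ≤ α * (k * q) := by
      apply mul_le_mul_of_nonneg_left _ hα.le
      nlinarith
    linarith
  have hH0 : 1 ≤ H := by rw [hH]; have := abs_nonneg (h : ℝ); linarith
  obtain ⟨z, hz⟩ : ∃ z : ℤ, z = ⌊x⌋ + h := ⟨_, rfl⟩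
  have hz1 : x / 2 ≤ (z : ℝ) := by
    have f1 := Int.sub_one_lt_floor x
    have f2 := neg_abs_le (h : ℝ)
    rw [hz]
    push_cast
    linarith
  have hz2 : (z : ℝ) ≤ 2 * x := by
    have f1 := Int.floor_le x
    have f2 := le_abs_self (h : ℝ)
    rw [hz]
    push_cast
    linarith
  have hz3 : (3 : ℤ) ≤ z := by
    have : (3 : ℝ) ≤ z := by linarith
    exact_mod_cast this
  have hx0 : 0 < x := by linarith
  have hz0 : (0 : ℝ) < z := by linarith
  have l1 : Real.log z ≤ Real.log 2 + Real.log x := by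
    rw [← Real.log_mul (by norm_num) hx0.ne']
    exact Real.log_le_log hz0 hz2
  have l2 : Real.log x - Real.log 2 ≤ Real.log z := by
    rw [← Real.log_div hx0.ne' (by norm_num)]
    exact Real.log_le_log (by positivity) hz1
  have l3 : Real.log x = Real.log α + (Real.log k + Real.log q) := by
    rw [hx, Real.log_mul hα.ne' (by positivity), Real.log_mul (by positivity) hq0.ne']
  have l4 : Real.log k ≤ Real.log M := Real.log_le_log (by linarith) hkM
  have l5 : Real.log M - D * Real.log (Real.log q) ≤ Real.log k := by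
    rw [← Real.log_pow, ← Real.log_div hM0.ne' (by positivity)]
    exact Real.log_le_log (by positivity) hk3
  obtain ⟨ℓ, hℓ⟩ : ∃ ℓ : ℝ, ℓ = Real.log (M * q) := ⟨_, rfl⟩
  have l6 : ℓ = Real.log M + Real.log q := by rw [hℓ, Real.log_mul hM0.ne' hq0.ne']
  have l7 : 0 ≤ Real.log M := Real.log_nonneg (by linarith)
  have l8 : 0 ≤ Real.log (Real.log q) := Real.log_nonneg (by linarith)
  obtain ⟨V, hV⟩ : ∃ V : ℝ, V = c + D * Real.log (Real.log q) := ⟨_, rfl⟩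
  have hD0 : (0 : ℝ) ≤ D * Real.log (Real.log q) := by positivity
  have a1 := le_abs_self (Real.log α)
  have a2 := neg_abs_le (Real.log α)
  have m1 : |ℓ - Real.log z| ≤ V := by
    rw [abs_le, hV, hc]
    constructor <;> linarith
  rw [← hV] at g1
  rw [div_lt_div_iff₀ hL0 (by positivity)] at g1
  have m2 : V * (1 + ε) ≤ ε * ℓ := by
    have : ε * Real.log q ≤ ε * ℓ := mul_le_mul_of_nonneg_left (by linarith) hε.le
    linarith
  have m3 : V ≤ ε * Real.log z := by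
    have := (abs_le.1 m1).2
    nlinarith
  have hlz : 0 < Real.log z := Real.log_pos (by linarith)
  have e1 : rz (⌊α * (k * q)⌋ + h) = 1 / Real.log z := by
    rw [← hx, ← hz]
    unfold rz
    rw [if_pos hz3]
  rw [e1, ← hℓ]
  have e2 : 1 / Real.log z * ℓ - 1 = (ℓ - Real.log z) / Real.log z := by field_simp
  rw [e2, abs_div, abs_of_pos hlz, div_le_iff₀ hlz]
  linarith

/-- from the error to the asymptotic formula -/
lemma asym (α : ℝ) (hα : 0 < α) (h : ℤ) (r B : ℕ) (ε : ℝ) (hε : 0 < ε) (S : ℕ → Set ℕ) :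
    ∀ᶠ q : ℕ in atTop, ∀ M : ℕ, q ≤ M ^ r → M ≤ q ^ r → (M : ℝ) / Real.log q ^ B ≤ size (S q) M →
      |er α h (W S q) q M| ≤ M / Real.log q ^ (B + 3) →
      |(count α h (S q) q M : ℝ) * Real.log (M * q) / size (S q) M - 1| ≤ ε := by
  have hr0 : (0 : ℝ) ≤ r := Nat.cast_nonneg r
  filter_upwards [rz_close α hα h (B + 2) (ε / 4) (by positivity), nlog.eventually_ge_atTop 1,
    nlog.eventually_ge_atTop (4 * (r + 1) / ε), nlog.eventually_ge_atTop (4 * (r + 2) / ε),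
    eventually_ge_atTop 2] with q g1 g2 g3 g4 g5 M hM1 hM2 hM3 hM4
  have hq0 : (0 : ℝ) < q := by exact_mod_cast (by omega : 0 < q)
  obtain ⟨L, hL⟩ : ∃ L : ℝ, L = Real.log q := ⟨_, rfl⟩
  rw [← hL] at g2 g3 g4 hM3 hM4
  have hL0 : 0 < L := by linarith
  have hM0' : M ≠ 0 := by
    rintro rfl
    rcases Nat.eq_zero_or_pos r with h0 | h0
    · subst h0
      simp at hM1
      omega
    · rw [zero_pow (by omega)] at hM1
      omega
  have hM0 : (0 : ℝ) < M := by exact_mod_cast Nat.pos_of_ne_zero hM0'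
  obtain ⟨ℓ, hℓ⟩ : ∃ ℓ : ℝ, ℓ = Real.log (M * q) := ⟨_, rfl⟩
  have l1 : ℓ = Real.log M + L := by rw [hℓ, Real.log_mul hM0.ne' hq0.ne', ← hL]
  have l2 : 0 ≤ Real.log M := Real.log_natCast_nonneg M
  have l3 : Real.log M ≤ r * L := by
    rw [hL, ← Real.log_pow]
    exact Real.log_le_log hM0 (by exact_mod_cast hM2)
  have hℓ0 : 0 < ℓ := by linarith
  obtain ⟨s, hs⟩ : ∃ s : ℝ, s = ∑ k ∈ Icc 1 M, W S q k := ⟨_, rfl⟩
  have hsz : (size (S q) M : ℝ) = s := by rw [size_eq, hs]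
  rw [hsz] at hM3 ⊢
  have hs0 : 0 < s := lt_of_lt_of_le (by positivity) hM3
  have hV : (((Icc 1 M).filter fun k : ℕ => ε / 4 < |rz (⌊α * (k * q)⌋ + h) * ℓ ^ 1 - 1|).card : ℝ) ≤
      M / L ^ (B + 2) := by
    refine le_trans ?_ (few_small (M + 1) (M / L ^ (B + 2)) (by positivity))
    have hsub : ((Icc 1 M).filter fun k : ℕ => ε / 4 < |rz (⌊α * (k * q)⌋ + h) * ℓ ^ 1 - 1|) ⊆
        (Icc 1 (M + 1 - 1)).filter fun k : ℕ => (k : ℝ) < M / L ^ (B + 2) := by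
      intro k hk
      rw [mem_filter, mem_Icc] at hk ⊢
      refine ⟨⟨hk.1.1, by omega⟩, ?_⟩
      by_contra hcon
      rw [not_lt] at hcon
      have h1 := g1 M k hk.1.1 hk.1.2 (by rw [← hL]; exact hcon)
      rw [← hℓ] at h1
      have h2 := hk.2
      rw [pow_one] at h2
      linarith
    exact_mod_cast Finset.card_le_card hsub
  have h5 := sum_pt (Icc 1 M) (W S q) (fun k : ℕ => rz (⌊α * (k * q)⌋ + h)) (fun k _ => W_nonneg S q k)
    (fun k _ => W_le S q k) (fun _ => rz_nonneg _) (fun _ => rz_le_one _) 1 1 (ε / 4) ℓ (M / L ^ (B + 2))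
    zero_le_one (by positivity) hℓ0.le hV
  rw [← expected_eq, ← hs, pow_one, one_mul] at h5
  obtain ⟨e, he⟩ : ∃ e : ℝ, e = expected α h (S q) q M := ⟨_, rfl⟩
  obtain ⟨c, hc⟩ : ∃ c : ℝ, c = (count α h (S q) q M : ℝ) := ⟨_, rfl⟩
  have h6 := er_sub α h S q M
  rw [← he, ← hc] at h6
  rw [← he] at h5
  rw [← h6] at hM4
  rw [← hc, ← hℓ]
  have p1 : (M : ℝ) / L ^ (B + 2) ≤ s / L ^ 2 := by
    rw [pow_add, ← div_div]
    exact div_le_div_of_nonneg_right hM3 (by positivity)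
  have p2 : (M : ℝ) / L ^ (B + 3) ≤ s / L ^ 3 := by
    rw [pow_add, ← div_div]
    exact div_le_div_of_nonneg_right hM3 (by positivity)
  have hℓL : ℓ ≤ (r + 1) * L := by linarith
  have p3 : (M : ℝ) / L ^ (B + 2) * (ℓ + 1) ≤ ε / 4 * s := by
    have q1 : ℓ + 1 ≤ (r + 2) * L := by linarith
    have q2 : (M : ℝ) / L ^ (B + 2) * (ℓ + 1) ≤ s / L ^ 2 * ((r + 2) * L) :=
      mul_le_mul p1 q1 (by linarith) (by positivity)
    have q3 : s / L ^ 2 * ((r + 2) * L) = s * ((r + 2) / L) := by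
      field_simp
    have q4 : ((r : ℝ) + 2) / L ≤ ε / 4 := by
      rw [div_le_iff₀ hε] at g4
      rw [div_le_iff₀ hL0]
      linarith
    have q5 : s * (((r : ℝ) + 2) / L) ≤ s * (ε / 4) := mul_le_mul_of_nonneg_left q4 hs0.le
    linarith
  have p4 : |c - e| * ℓ ≤ ε / 4 * s := by
    have q1 : |c - e| * ℓ ≤ s / L ^ 3 * ((r + 1) * L) :=
      mul_le_mul (hM4.trans p2) hℓL hℓ0.le (by positivity)
    have q3 : s / L ^ 3 * ((r + 1) * L) = s * ((r + 1) / L) * (1 / L) := by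
      field_simp
    have q4 : ((r : ℝ) + 1) / L ≤ ε / 4 := by
      rw [div_le_iff₀ hε] at g3
      rw [div_le_iff₀ hL0]
      linarith
    have q5 : s * (((r : ℝ) + 1) / L) ≤ s * (ε / 4) := mul_le_mul_of_nonneg_left q4 hs0.le
    have q6 : 1 / L ≤ 1 := by
      rw [div_le_one hL0]
      exact g2
    have q7 : s * (((r : ℝ) + 1) / L) * (1 / L) ≤ s * (((r : ℝ) + 1) / L) * 1 :=
      mul_le_mul_of_nonneg_left q6 (by positivity)
    linarith
  have e2 : c * ℓ / s - 1 = ((c - e) * ℓ + (e * ℓ - s)) / s := by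
    field_simp
    ring
  rw [e2, abs_div, abs_of_pos hs0, div_le_iff₀ hs0]
  refine (abs_add_le _ _).trans ?_
  rw [abs_mul, abs_of_pos hℓ0]
  have hεs : 0 ≤ ε * s := by positivity
  linarith

/-- the multipliers not divisible by `p` -/
lemma size_ndvd (p M : ℕ) : (M : ℝ) - M / p ≤ size {k | ¬ p ∣ k} M := by
  have e1 : {k : ℕ | 1 ≤ k ∧ k ≤ M ∧ k ∈ {k | ¬ p ∣ k}} =
      (((Ioc 0 M).filter fun k => ¬ p ∣ k : Finset ℕ) : Set ℕ) := by
    ext k
    simp only [Set.mem_ofPred_eq, Finset.coe_filter, Finset.mem_Ioc]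
    constructor
    · rintro ⟨a, b, c⟩
      exact ⟨⟨by omega, b⟩, c⟩
    · rintro ⟨⟨a, b⟩, c⟩
      exact ⟨by omega, b, c⟩
  have h1 := Finset.card_filter_add_card_filter_not (s := Ioc 0 M) (fun k => p ∣ k)
  rw [Nat.Ioc_filter_dvd_card_eq_div, Nat.card_Ioc] at h1
  have h2 : size {k | ¬ p ∣ k} M = ((Ioc 0 M).filter fun k => ¬ p ∣ k).card := by
    unfold size
    rw [e1, Set.ncard_coe_finset]
  rw [h2]
  have h3 : ((M / p : ℕ) : ℝ) ≤ (M : ℝ) / p := Nat.cast_div_le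
  have h4 : ((M / p : ℕ) : ℝ) + (((Ioc 0 M).filter fun k => ¬ p ∣ k).card : ℝ) = M := by
    exact_mod_cast (by omega : M / p + ((Ioc 0 M).filter fun k => ¬ p ∣ k).card = M)
  linarith

/-- Let `𝒬` be any set of natural numbers. The notion of nearly all members is defined above (`Nearly`): it gives all
large `q ∈ 𝒬` if `𝒬` is sparse.

(1) For almost every real `α > 0`, all integers `h` and all `δ, ε > 0`: for nearly all `p ∈ 𝒬`, if `p` is prime, the
number of the `k ≤ M` such that `p ∤ k` and `⌊α k p⌋ + h` is prime is `(1 + O(ε)) M / log (M p)` for all `M` between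
`p ^ δ` and `p ^ (1 / δ)`, and there is such a `k ≤ p ^ δ`. (The question is whether there is a `k < 2 (p + 1)` for
`α = 2`, `h = 1` and all `p`.)

(2) Arbitrary multipliers. Let `S q` be any sets of natural numbers. For almost every real `α > 0`, all integers `h` and
all `r ≥ 1`: for nearly all `q ∈ 𝒬` and all `M` with `q ≤ M ^ r` and `M ≤ q ^ r` the number of the `k ∈ S q`,
`1 ≤ k ≤ M`, such that `⌊α k q⌋ + h` is prime is the sum of the `1 / log (⌊α k q⌋ + h)` over the `k ∈ S q`, `k ≤ M`, up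
to `M / (log q) ^ K`, for any given `K`; and it is `(1 + O(ε)) |S q| / log (M q)` if `S q` has at least
`M / (log q) ^ B` elements in `[1, M]`, for any given `B`, `ε > 0`. -/
theorem result (𝒬 : Set ℕ) :
    (∀ᵐ α : ℝ, 0 < α → ∀ (h : ℤ) (δ ε : ℝ), 0 < δ → 0 < ε → Nearly 𝒬 fun p => p.Prime →
      (∀ M : ℕ, (p : ℝ) ^ δ ≤ M → (M : ℝ) ≤ (p : ℝ) ^ (1 / δ) →
        |(count α h {k | ¬ p ∣ k} p M : ℝ) * Real.log (M * p) / M - 1| ≤ ε) ∧
      ∃ k : ℕ, 1 ≤ k ∧ (k : ℝ) ≤ (p : ℝ) ^ δ ∧ ¬ p ∣ k ∧ IsPrime (⌊α * (k * p)⌋ + h)) ∧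
    (∀ S : ℕ → Set ℕ, ∀ᵐ α : ℝ, 0 < α → ∀ (h : ℤ) (r : ℕ), 1 ≤ r →
      (∀ K : ℕ, Nearly 𝒬 fun q => ∀ M : ℕ, q ≤ M ^ r → M ≤ q ^ r →
        |(count α h (S q) q M : ℝ) - expected α h (S q) q M| ≤ M / Real.log q ^ K) ∧
      (∀ (B : ℕ) (ε : ℝ), 0 < ε → Nearly 𝒬 fun q => ∀ M : ℕ, q ≤ M ^ r → M ≤ q ^ r →
        (M : ℝ) / Real.log q ^ B ≤ size (S q) M →
        |(count α h (S q) q M : ℝ) * Real.log (M * q) / size (S q) M - 1| ≤ ε)) := by
  have one : ∀ S : ℕ → Set ℕ, ∀ᵐ α : ℝ, 0 < α → ∀ (h : ℤ) (r : ℕ), 1 ≤ r →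
      (∀ K : ℕ, Nearly 𝒬 fun q => ∀ M : ℕ, q ≤ M ^ r → M ≤ q ^ r →
        |(count α h (S q) q M : ℝ) - expected α h (S q) q M| ≤ M / Real.log q ^ K) ∧
      (∀ (B : ℕ) (ε : ℝ), 0 < ε → Nearly 𝒬 fun q => ∀ M : ℕ, q ≤ M ^ r → M ≤ q ^ r →
        (M : ℝ) / Real.log q ^ B ≤ size (S q) M →
        |(count α h (S q) q M : ℝ) * Real.log (M * q) / size (S q) M - 1| ≤ ε) := by
    intro S
    filter_upwards [mult_ae (W S) (W_abs S) 𝒬] with α h0 hα h r hr
    have key : ∀ K : ℕ, Nearly 𝒬 fun q => ∀ M : ℕ, q ≤ M ^ r → M ≤ q ^ r →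
        |(count α h (S q) q M : ℝ) - expected α h (S q) q M| ≤ M / Real.log q ^ K := by
      intro K
      refine nearly_gen 𝒬 (fun K q => ∃ M : ℕ, q ≤ M ^ r ∧ M ≤ q ^ r ∧
          (M : ℝ) / Real.log q ^ K < |er α h (W S q) q M|) (h0 hα h r hr) ?_ K _ ?_
      · filter_upwards [nlog.eventually_ge_atTop 1] with q hq K K' hKK
        rintro ⟨M, m1, m2, m3⟩
        refine ⟨M, m1, m2, lt_of_le_of_lt ?_ m3⟩
        apply div_le_div_of_nonneg_left (Nat.cast_nonneg _) (by positivity)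
        exact pow_le_pow_right₀ hq hKK
      · refine Eventually.of_forall fun q hq M m1 m2 => ?_
        rw [er_sub]
        by_contra hcon
        exact hq ⟨M, m1, m2, not_le.1 hcon⟩
    refine ⟨key, fun B ε hε => ?_⟩
    refine nearly_mono 𝒬 _ _ (key (B + 3)) ?_
    filter_upwards [asym α hα h r B ε hε S] with q g1 g2 M m1 m2 m3
    have g3 := g2 M m1 m2
    rw [er_sub] at g3
    exact g1 M m1 m2 m3 g3
  refine ⟨?_, one⟩
  filter_upwards [one fun p => {k | ¬ p ∣ k}] with α h1 hα h δ ε hδ hε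
  obtain ⟨r, hr⟩ : ∃ r : ℕ, r = ⌈2 / δ⌉₊ + 1 := ⟨_, rfl⟩
  have hr1 : 1 ≤ r := by omega
  have hrr : (0 : ℝ) < r := by exact_mod_cast hr1
  have hrδ : 2 / δ ≤ r := by
    rw [hr]
    push_cast
    have := Nat.le_ceil (2 / δ)
    linarith
  have hrδ' : 1 / (r : ℝ) ≤ δ / 2 := by
    rw [div_le_iff₀ hδ] at hrδ
    rw [div_le_iff₀ hrr]
    linarith
  have hrδ2 : 1 / δ ≤ r := by
    have : 1 / δ ≤ 2 / δ := div_le_div_of_nonneg_right (by norm_num) hδ.le
    linarith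
  obtain ⟨η, hη⟩ : ∃ η : ℝ, η = min (ε / 2) (1 / 2) := ⟨_, rfl⟩
  have hη0 : 0 < η := by rw [hη]; exact lt_min (by positivity) (by norm_num)
  have hη1 : η ≤ ε / 2 := by rw [hη]; exact min_le_left _ _
  have hη2 : η ≤ 1 / 2 := by rw [hη]; exact min_le_right _ _
  refine nearly_mono 𝒬 _ _ ((h1 hα h r hr1).2 1 η hη0) ?_
  have hpow : Tendsto (fun p : ℕ => (p : ℝ) ^ (δ / 2)) atTop atTop :=
    (tendsto_rpow_atTop (by positivity)).comp tendsto_natCast_atTop_atTop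
  filter_upwards [nlog.eventually_ge_atTop 2, eventually_ge_atTop 2, hpow.eventually_ge_atTop 2,
    tendsto_natCast_atTop_atTop.eventually_ge_atTop (2 * (1 + η) / ε)] with p g1 g2 g3 g4 g5 hp
  have hpr : (2 : ℝ) ≤ p := by exact_mod_cast g2
  have hp0 : (0 : ℝ) < p := by linarith
  have hsize : ∀ M : ℕ, (M : ℝ) / Real.log p ^ 1 ≤ size {k | ¬ p ∣ k} M := by
    intro M
    refine le_trans ?_ (size_ndvd p M)
    rw [pow_one, div_le_iff₀ (by linarith)]
    have hM0 : (0 : ℝ) ≤ M := Nat.cast_nonneg M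
    have h3 : (M : ℝ) / p ≤ M / 2 := div_le_div_of_nonneg_left hM0 (by norm_num) hpr
    nlinarith
  refine ⟨fun M hM1 hM2 => ?_, ?_⟩
  · have m1 : p ≤ M ^ r := by
      have h3 : ((p : ℝ) ^ δ) ^ (r : ℝ) ≤ (M : ℝ) ^ (r : ℝ) :=
        Real.rpow_le_rpow (by positivity) hM1 hrr.le
      rw [← Real.rpow_mul hp0.le, Real.rpow_natCast] at h3
      have h4 : (p : ℝ) ^ (1 : ℝ) ≤ (p : ℝ) ^ (δ * r) := by
        apply Real.rpow_le_rpow_of_exponent_le (by linarith)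
        rw [div_le_iff₀ hδ] at hrδ2
        linarith
      rw [Real.rpow_one] at h4
      exact_mod_cast h4.trans h3
    have m2 : M ≤ p ^ r := by
      have h3 : (p : ℝ) ^ (1 / δ) ≤ (p : ℝ) ^ (r : ℝ) :=
        Real.rpow_le_rpow_of_exponent_le (by linarith) hrδ2
      rw [Real.rpow_natCast] at h3
      exact_mod_cast hM2.trans h3
    have h3 := g5 M m1 m2 (hsize M)
    have hM0 : (0 : ℝ) < M := lt_of_lt_of_le (by positivity) hM1
    obtain ⟨s, hs⟩ : ∃ s : ℝ, s = (size {k | ¬ p ∣ k} M : ℝ) := ⟨_, rfl⟩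
    obtain ⟨c, hc⟩ : ∃ c : ℝ, c = (count α h {k | ¬ p ∣ k} p M : ℝ) * Real.log (M * p) := ⟨_, rfl⟩
    have s1 := size_ndvd p M
    have s2 : (size {k | ¬ p ∣ k} M : ℝ) ≤ M := by exact_mod_cast size_le _ M
    rw [← hs] at h3 s1 s2
    rw [← hc] at h3 ⊢
    have hs0 : 0 < s := by
      have h4 : (M : ℝ) / p ≤ M / 2 := div_le_div_of_nonneg_left hM0.le (by norm_num) hpr
      linarith
    have e1 : c / M - 1 = (c / s - 1) * (s / M) + (s - M) / M := by
      field_simp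
      ring
    rw [e1]
    have q1 : |(c / s - 1) * (s / M)| ≤ η := by
      rw [abs_mul, abs_of_pos (by positivity : 0 < s / M)]
      calc |c / s - 1| * (s / M) ≤ η * 1 :=
            mul_le_mul h3 (by rw [div_le_one hM0]; exact s2) (by positivity) hη0.le
        _ = η := mul_one _
    have q2 : |(s - M) / M| ≤ ε / 2 := by
      rw [abs_div, abs_of_pos hM0, div_le_iff₀ hM0, abs_of_nonpos (by linarith)]
      have q3 : (M : ℝ) / p ≤ ε / 2 * M := by
        rw [div_le_iff₀ hp0]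
        rw [div_le_iff₀ hε] at g4
        nlinarith
      linarith
    refine (abs_add_le _ _).trans ?_
    linarith
  · obtain ⟨M, hM⟩ : ∃ M : ℕ, M = ⌈(p : ℝ) ^ (1 / (r : ℝ))⌉₊ := ⟨_, rfl⟩
    have hM1 : (p : ℝ) ^ (1 / (r : ℝ)) ≤ M := by rw [hM]; exact Nat.le_ceil _
    have hM2 : (M : ℝ) < (p : ℝ) ^ (1 / (r : ℝ)) + 1 := by rw [hM]; exact Nat.ceil_lt_add_one (by positivity)
    have h3 : (p : ℝ) ^ (1 / (r : ℝ)) ≤ (p : ℝ) ^ (δ / 2) :=
      Real.rpow_le_rpow_of_exponent_le (by linarith) hrδ'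
    have hMδ : (M : ℝ) ≤ (p : ℝ) ^ δ := by
      have h4 : (p : ℝ) ^ δ = (p : ℝ) ^ (δ / 2) * (p : ℝ) ^ (δ / 2) := by
        rw [← Real.rpow_add hp0]
        congr 1
        ring
      rw [h4]
      nlinarith
    have m1 : p ≤ M ^ r := by
      have h4 : ((p : ℝ) ^ (1 / (r : ℝ))) ^ (r : ℝ) ≤ (M : ℝ) ^ (r : ℝ) :=
        Real.rpow_le_rpow (by positivity) hM1 hrr.le
      rw [← Real.rpow_mul hp0.le, one_div_mul_cancel hrr.ne', Real.rpow_one, Real.rpow_natCast] at h4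
      exact_mod_cast h4
    have m2 : M ≤ p ^ r := by
      have h5 : M ≤ p := by
        have h6 : (p : ℝ) ^ (1 / (r : ℝ)) ≤ (p : ℝ) ^ (1 : ℝ) := by
          apply Real.rpow_le_rpow_of_exponent_le (by linarith)
          rw [div_le_one hrr]
          exact_mod_cast hr1
        rw [Real.rpow_one] at h6
        rw [hM]
        exact Nat.ceil_le.2 h6
      exact h5.trans (Nat.le_self_pow (by omega) p)
    have h4 := g5 M m1 m2 (hsize M)
    have h5 : count α h {k | ¬ p ∣ k} p M ≠ 0 := by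
      intro h0
      rw [h0, Nat.cast_zero, zero_mul, zero_div, zero_sub, abs_neg, abs_one] at h4
      linarith
    unfold count at h5
    obtain ⟨k, hk1, hk2, hk3, hk4⟩ := Set.nonempty_of_ncard_ne_zero h5
    exact ⟨k, hk1, (show (k : ℝ) ≤ M by exact_mod_cast hk2).trans hMδ, hk3, hk4⟩

end Pool.Agent.Results.MP_2f88e5_nt.MetricMultipliers
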