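import Pool.Agent.U832.RH.GeE
import Pool.Agent.U832.RG.FixedUse
import Pool.Agent.Y879.GL.QuadU

/-!
# For EVERY large prime `p`: the almost primes `2 k p + 1` with small `k`, and the process around them

For EVERY large prime `p` let `S` be the set of the `k` for which `2 k p + 1` has no prime factor `≤ p ^ (1 / r)`. In all
intervals `(Z, Z + Y]` of multipliers with `Y ≥ p ^ θ` the elements of `S` form a Poisson process: the numbers of
elements of `S` in disjoint windows are independent Poisson variables, seen from an arbitrary integer, from an arbitrary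
element of `S`, or from an arbitrary `k` for which `2 k p + 1` has at most `R` prime factors, all `> p ^ v` (`R` and `v`
do not depend on the windows).
-/

set_option autoImplicit false

namespace Pool.Agent.Results.MP_2f88e5_nt.PoissonMultipliers

open Finset Filter Pool.Agent.U832.RG Pool.Agent.U832.RH

/-- The `k` for which `2 k p + 1` has no prime factor `≤ y`. -/
def Rough (p y : ℕ) : Set ℕ := {k | ∀ l : ℕ, l.Prime → l ≤ y → ¬ l ∣ 2 * k * p + 1}

/-- The `k` for which `2 k p + 1` has at most `R` prime factors, counted with multiplicity, all `> z`. -/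
def AlmostRough (p R z : ℕ) : Set ℕ := {k | k ∈ Rough p z ∧ (2 * k * p + 1).primeFactorsList.length ≤ R}

/-- The product of `1 - 1 / l` over the primes `2 < l ≤ y`. -/
noncomputable def V (y : ℕ) : ℝ := ∏ l ∈ (Icc 3 y).filter Nat.Prime, (1 - 1 / (l : ℝ))

section aux

open Polynomial
open Pool.Agent.Y879.GL Pool.Agent.TH464.PO Pool.Agent.H373R2.T7 Pool.Agent.W123.RP
open Pool.Agent.W123.RU.Poly (Q Sys)

/-- the polynomial -/
noncomputable def f1 (p : ℕ) : ℤ[X] := C (2 * (p : ℤ)) * X + C 1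

lemma f1_eval (p : ℕ) (x : ℤ) : (f1 p).eval x = 2 * p * x + 1 := by simp [f1]

lemma f1_deg (p : ℕ) (hp : 0 < p) : (f1 p).natDegree = 1 := by
  unfold f1
  apply natDegree_linear
  have : (p : ℤ) ≠ 0 := by exact_mod_cast hp.ne'
  omega

lemma f1_irr (p : ℕ) (hp : 0 < p) : Irreducible (f1 p) := by
  have h2 : (2 * (p : ℤ)) ≠ 0 := by
    have : (p : ℤ) ≠ 0 := by exact_mod_cast hp.ne'
    omega
  have hprim : (f1 p).IsPrimitive := by
    intro r hr
    have h1 : r ∣ (f1 p).coeff 0 := (C_dvd_iff_dvd_coeff r (f1 p)).1 hr 0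
    have h3 : (f1 p).coeff 0 = 1 := by simp [f1]
    rw [h3] at h1
    exact isUnit_of_dvd_one h1
  rw [IsPrimitive.Int.irreducible_iff_irreducible_map_cast hprim]
  apply irreducible_of_degree_eq_one
  rw [degree_map_eq_of_injective (RingHom.injective_int _)]
  unfold f1
  exact degree_linear h2

lemma f1_adm (p l : ℕ) (hl : l.Prime) : ∃ m : ℕ, ¬ (l : ℤ) ∣ (f1 p).eval (m : ℤ) := by
  refine ⟨0, fun h => ?_⟩
  rw [f1_eval] at h
  have h1 : (l : ℤ) ∣ ((1 : ℕ) : ℤ) := by simpa using h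
  exact hl.one_lt.ne' (Nat.dvd_one.1 (Int.natCast_dvd_natCast.1 h1))

/-- the system -/
noncomputable def fs (p : ℕ) : Fin 1 → ℤ[X] := fun _ => f1 p

lemma fs_Q (p l m : ℕ) : Q (fs p) l m ↔ l ∣ 2 * m * p + 1 := by
  unfold Q fs
  rw [exists_const, f1_eval, show (2 * (p : ℤ) * m + 1) = ((2 * m * p + 1 : ℕ) : ℤ) by push_cast; ring]
  exact Int.natCast_dvd_natCast

lemma rough_iff (p y n : ℕ) : n ∈ Rough p y ↔ Sf (Q (fs p)) y n := by
  unfold Sf Rough
  simp only [fs_Q, mem_pz, Set.mem_ofPred_eq]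
  constructor
  · exact fun h p hp => h p hp.2 hp.1
  · exact fun h p hp hpy => h p ⟨hpy, hp⟩

lemma nu_two (p : ℕ) : nuB (Q (fs p)) 2 = 0 := by
  classical
  unfold nuB
  rw [card_eq_zero, filter_eq_empty_iff]
  intro m _ h
  rw [fs_Q, mul_assoc] at h
  omega

lemma nu_odd (p l : ℕ) (hl : l.Prime) (h2 : l ≠ 2) (hp : ¬ l ∣ p) : nuB (Q (fs p)) l = 1 := by
  classical
  have : Fact l.Prime := ⟨hl⟩
  unfold nuB
  have hc : ((2 * p : ℕ) : ZMod l) ≠ 0 := by
    intro h
    rw [ZMod.natCast_eq_zero_iff] at h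
    rcases (hl.dvd_mul).1 h with h | h
    · exact h2 ((Nat.prime_dvd_prime_iff_eq hl Nat.prime_two).1 h)
    · exact hp h
  rw [card_eq_one]
  refine ⟨(-((2 * p : ℕ) : ZMod l)⁻¹).val, ?_⟩
  ext m
  rw [mem_filter, mem_singleton, mem_range, fs_Q, ← ZMod.natCast_eq_zero_iff]
  have e : ((2 * m * p + 1 : ℕ) : ZMod l) = ((2 * p : ℕ) : ZMod l) * (m : ZMod l) + 1 := by
    push_cast
    ring
  rw [e]
  constructor
  · rintro ⟨hm, h⟩
    have h3 : (m : ZMod l) = -((2 * p : ℕ) : ZMod l)⁻¹ := by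
      have h4 : ((2 * p : ℕ) : ZMod l) * (m : ZMod l) = -1 := eq_neg_of_add_eq_zero_left h
      have h5 : (m : ZMod l) = ((2 * p : ℕ) : ZMod l)⁻¹ * (((2 * p : ℕ) : ZMod l) * (m : ZMod l)) := by
        rw [← mul_assoc, inv_mul_cancel₀ hc, one_mul]
      rw [h5, h4]
      ring
    rw [← h3, ZMod.val_natCast, Nat.mod_eq_of_lt hm]
  · intro h
    rw [h]
    refine ⟨ZMod.val_lt _, ?_⟩
    rw [ZMod.natCast_zmod_val, mul_neg, mul_inv_cancel₀ hc]
    ring

lemma V_eq (p y : ℕ) (hp : p.Prime) (hy : y < p) : Vq (Q (fs p)) y = V y := by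
  classical
  unfold Vq V
  symm
  have hsub : (Icc 3 y).filter Nat.Prime ⊆ pz y := by
    intro l hl
    rw [mem_filter, mem_Icc] at hl
    exact mem_pz.2 ⟨hl.1.2, hl.2⟩
  rw [← Finset.prod_subset hsub]
  · apply Finset.prod_congr rfl
    intro l hl
    rw [mem_filter, mem_Icc] at hl
    rw [nu_odd p l hl.2 (by omega) (fun h => by
      have := (Nat.prime_dvd_prime_iff_eq hl.2 hp).1 h
      omega)]
    push_cast
    rfl
  · intro l hl hl2
    have h1 := mem_pz.1 hl
    have h3 : l = 2 := by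
      by_contra h
      apply hl2
      rw [mem_filter, mem_Icc]
      have := h1.2.two_le
      exact ⟨⟨by omega, h1.1⟩, h1.2⟩
    rw [h3, nu_two]
    simp

lemma V_le (y : ℕ) : V y ≤ 2 * Vz y := by
  unfold Vz V
  rw [pz_eq']
  by_cases h : 2 ≤ y
  · have e : (Icc 1 y).filter Nat.Prime = insert 2 ((Icc 3 y).filter Nat.Prime) := by
      ext l
      rw [mem_insert, mem_filter, mem_filter, mem_Icc, mem_Icc]
      constructor
      · rintro ⟨⟨_, h2⟩, h3⟩
        by_cases h4 : l = 2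
        · exact Or.inl h4
        · right
          have := h3.two_le
          exact ⟨⟨by omega, h2⟩, h3⟩
      · rintro (h1 | ⟨⟨h1, h2⟩, h3⟩)
        · subst h1
          exact ⟨⟨by norm_num, h⟩, Nat.prime_two⟩
        · exact ⟨⟨by omega, h2⟩, h3⟩
    rw [e, Finset.prod_insert (by simp)]
    apply le_of_eq
    push_cast
    ring
  · have e : (Icc 3 y).filter Nat.Prime = ∅ := by
      rw [Finset.filter_eq_empty_iff]
      intro l hl
      rw [mem_Icc] at hl
      omega
    have e' : (Icc 1 y).filter Nat.Prime = ∅ := by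
      rw [Finset.filter_eq_empty_iff]
      intro l hl hlp
      rw [mem_Icc] at hl
      have := hlp.two_le
      omega
    rw [e, e']
    simp

lemma us_k (p X : ℕ) (hp : 2 ≤ p) (hX : X = p) (U : ℝ) : US 1 1 ((X : ℝ) ^ (2 : ℝ)) U (fs p) := by
  subst hX
  have hX2 : (2 : ℝ) ≤ X := by exact_mod_cast hp
  have hpow : (X : ℝ) ^ (2 : ℝ) = X * X := by
    rw [show (2 : ℝ) = ((2 : ℕ) : ℝ) by norm_num, Real.rpow_natCast, sq]
  apply us_single (f1 X) (f1_irr X (by omega))
  · rw [f1_deg X (by omega)]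
    norm_num
  · rw [f1_deg X (by omega)]
  · intro n
    rw [hpow]
    rcases n with _ | _ | n
    · have : (f1 X).coeff 0 = 1 := by simp [f1]
      rw [this]
      push_cast
      rw [abs_one]
      nlinarith
    · have : (f1 X).coeff 1 = 2 * X := by simp [f1, coeff_one]
      rw [this]
      push_cast
      rw [abs_of_nonneg (by positivity)]
      nlinarith
    · have : (f1 X).coeff (n + 2) = 0 := by
        apply coeff_eq_zero_of_natDegree_lt
        rw [f1_deg X (by omega)]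
        omega
      rw [this]
      push_cast
      rw [abs_zero]
      positivity
  · intro l hl
    exact f1_adm X l hl

lemma almost_iff (A p z m : ℕ) (w : ℝ) (hw : 0 < w) (hX : 2 ≤ p) (hz : z = ⌊(p : ℝ) ^ w⌋₊)
    (hm : m ≤ p ^ A) : m ∈ AlmostRough p ⌊((A + 3 : ℕ) : ℝ) / w⌋₊ z ↔ m ∈ Rough p z := by
  refine ⟨fun h => h.1, fun h => ⟨h, ?_⟩⟩
  apply few_factors p w ((A + 3 : ℕ) : ℝ) hX hw
  · omega
  · rw [Real.rpow_natCast]
    have h1 : 2 * m * p + 1 ≤ p ^ (A + 3) := by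
      have h2 : 1 ≤ p ^ A := Nat.one_le_pow _ _ (by omega)
      have h3 : 2 * m * p + 1 ≤ 2 * p ^ A * p + p ^ A := by
        have : 2 * m * p ≤ 2 * p ^ A * p := Nat.mul_le_mul_right _ (Nat.mul_le_mul_left _ hm)
        omega
      have h4 : 2 * p ^ A * p + p ^ A ≤ p ^ A * (p * p * p) := by
        have h5 : 2 * p + 1 ≤ p * p * p := by nlinarith [Nat.mul_le_mul hX hX]
        calc 2 * p ^ A * p + p ^ A = p ^ A * (2 * p + 1) := by ring
          _ ≤ p ^ A * (p * p * p) := Nat.mul_le_mul_left _ h5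
      calc 2 * m * p + 1 ≤ p ^ A * (p * p * p) := h3.trans h4
        _ = p ^ (A + 3) := by ring
    exact_mod_cast h1
  · intro l hl hlz hd
    exact h l hl (by rw [hz]; exact hlz) hd

end aux

/-- Let `A` be a natural number and `θ, η > 0`. There are `v > 0` and `R`, such that for all `J`, `L`, `x₀`, all `ε > 0`
and all large `r`: for EVERY large prime `p`, with `y = ⌊p ^ (1 / r)⌋`, `z = ⌊p ^ v⌋`, ALL intervals `(Z, Z + Y]` of
multipliers with `Y ≥ p ^ θ` and all `T` with `T V ≤ x₀`, `V = V y`: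
(1) the set `Rough p y` of the `k` for which `2 k p + 1` has no prime factor `≤ y` satisfies `PoissonLaw`: for all
disjoint windows `(a j, b j] ⊆ (0, T]`, `j < J`, all `s ≤ T` outside of them and all `c j ≤ L`, the number of the `k`
in `(Z, Z + Y]` with `k + s ∈ Rough p y` and exactly `c j` elements of `Rough p y` in `(k + a j, k + b j]` for all `j`
is `Y V Π` up to `ε Y V`, where `Π` is the product of the probabilities that a Poisson variable of mean
`(b j - a j) V` has the value `c j`; and the same without the condition on `k + s`, with `Y` instead of `Y V`;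
(2) if `Z + Y + T ≤ p ^ A`: the number of the `k` in `(Z, Z + Y]` for which `2 (k + s) p + 1` has at most `R` prime
factors, all `> z`, with the same windows, is `Y W Π` up to `(η Π + ε) Y W`, `W = V z`. -/
theorem result (A : ℕ) (θ η : ℝ) (hθ : 0 < θ) (hη : 0 < η) :
    ∃ v : ℝ, 0 < v ∧ ∃ R : ℕ, ∀ (J L : ℕ) (x₀ ε : ℝ), 0 < ε → ∃ r₀ : ℕ, ∀ r : ℕ, r₀ ≤ r →
      ∀ᶠ p : ℕ in atTop, p.Prime → ∀ y z : ℕ, y = ⌊(p : ℝ) ^ (1 / (r : ℝ))⌋₊ → z = ⌊(p : ℝ) ^ v⌋₊ →
      ∀ Z Y T : ℕ, (p : ℝ) ^ θ ≤ Y → T * V y ≤ x₀ → PoissonLaw (Rough p y) (V y) J L ε Z Y T ∧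
        (Z + Y + T ≤ p ^ A → CentreLaw (AlmostRough p R z) (Rough p y) (V z) (V y) J L η ε Z Y T) := by
  obtain ⟨v₀, hv₀, hG⟩ := lawG_polys 1 1 2 1 θ two_pos one_pos hθ η hη
  obtain ⟨v, hv⟩ : ∃ v : ℝ, v = min v₀ (1 / 2) := ⟨_, rfl⟩
  have hv0 : 0 < v := by rw [hv]; positivity
  have hv2 : v ≤ 1 / 2 := by rw [hv]; exact min_le_right _ _
  refine ⟨v, hv0, ⌊((A + 3 : ℕ) : ℝ) / v⌋₊, ?_⟩
  intro J L x₀ ε hε
  obtain ⟨r₁, h⟩ := law_polys 1 1 2 1 θ two_pos one_pos hθ J L x₀ ε hε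
  obtain ⟨r₂, h'⟩ := hG v hv0 (by rw [hv]; exact min_le_left _ _) J L x₀ ε hε
  refine ⟨max (max r₁ r₂) 2, fun r hr => ?_⟩
  have hr2 : 2 ≤ r := (le_max_right _ _).trans hr
  obtain ⟨C, hC, hVz⟩ := Pool.Agent.Y879.GL.Vz_up r hr2
  filter_upwards [h r (((le_max_left _ _).trans (le_max_left _ _)).trans hr) (2 * C),
    h' r (((le_max_right _ _).trans (le_max_left _ _)).trans hr) (2 * C), hVz, eventually_ge_atTop 4] with
    p hX hX' hVX hp4
  intro hp y z hy hz Z Y T hY hT
  have hp1 : (1 : ℝ) < p := by exact_mod_cast (by omega : 1 < p)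
  have hp0 : (0 : ℝ) < p := by linarith
  have hsmall : ∀ t : ℝ, t ≤ 1 / 2 → ⌊(p : ℝ) ^ t⌋₊ < p := by
    intro t ht
    rw [Nat.floor_lt (by positivity)]
    calc (p : ℝ) ^ t < (p : ℝ) ^ (1 : ℝ) := Real.rpow_lt_rpow_of_exponent_lt hp1 (by linarith)
      _ = p := Real.rpow_one _
  have hyp : y < p := by
    rw [hy]
    apply hsmall
    have : (2 : ℝ) ≤ r := by exact_mod_cast hr2
    rw [div_le_div_iff₀ (by linarith) (by norm_num)]
    linarith
  have hzp : z < p := by
    rw [hz]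
    exact hsmall v hv2
  have hus := us_k p p (by omega) rfl ((p : ℝ) ^ (1 : ℝ))
  have hVy : Pool.Agent.W123.RP.Vq (Pool.Agent.W123.RU.Poly.Q (fs p)) y ≤ 2 * C / Real.log p := by
    rw [V_eq p y hp hyp]
    rw [← hy] at hVX
    calc V y ≤ 2 * Pool.Agent.H373R2.T7.Vz y := V_le y
      _ ≤ 2 * (C / Real.log p) := by linarith [hVX.2]
      _ = 2 * C / Real.log p := by ring
  constructor
  · have h4 := hX (fs p) hus (by rw [← hy]; exact hVy) Z Y hY T
    rw [← hy, V_eq p y hp hyp] at h4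
    exact h4 hT (Rough p y) (fun m _ => rough_iff p y m)
  · intro hZ
    have h4 := hX' y z hy hz (fs p) hus hVy Z Y hY T
    rw [V_eq p y hp hyp, V_eq p z hp hzp] at h4
    exact h4 hT (AlmostRough p ⌊((A + 3 : ℕ) : ℝ) / v⌋₊ z) (Rough p y) (fun m _ => rough_iff p y m)
      (fun m hm => (almost_iff A p z m v hv0 (by omega) hz (hm.trans hZ)).trans (rough_iff p z m))

end Pool.Agent.Results.MP_2f88e5_nt.PoissonMultipliers
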