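import Mathlib
import Pool.Agent.U98.TZ.F5

set_option autoImplicit false

/-!
# The successive multipliers `k` with `2 k p + 1` almost prime, over the primes `p`

Call an integer rough at the level `w` if it has no prime factors `≤ w`. For a prime `p` let `k₁ < k₂ < ...` be the
multipliers of `p`: all `k ≥ 1` for which `2 k p + 1` is rough. The theorem says that over the primes `p` of
`(u, u + Y] ⊆ [δ X, X]`, `Y ≥ δ X`, the multipliers form asymptotically a Poisson process of intensity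
`2 M(w)`, `M(w) = ∏ (1 - 1 / q)`, `q ≤ w`, for all levels `w ≤ X ^ (1 / r)`: (1) the differences `k₁`, `k₂ - k₁`, ...,
`k_l - k_(l - 1)` are asymptotically independent with the exponential law, (2) the number of the multipliers in a union
of `J` intervals has asymptotically the Poisson law, (3) for every set `S` of `g` integers `≤ L` the number of the
primes `p` whose multipliers `≤ L` are exactly the elements of `S` satisfies an asymptotic formula, with a relative
error `ε`, uniformly in `S`.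

Proof idea. The inverse modulo a prime `q` turns the conditions `q ∣ 2 k n + 1` into the conditions `q ∣ n + 2 k`. So
the local densities of the sets of multipliers are those of the patterns `0`, `2 k₁`, ..., `2 k_g` of rough numbers.
The average of the singular series, the method of moments and the fundamental lemma with the theorem of Bombieri and
Vinogradov give (2) and (3); (1) follows by the comparison of (3), for every pattern, with the number of the rough
integers with the corresponding pattern of the following rough integers, for which the law of the gaps is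
known (Hooley).
-/

namespace Pool.Agent.Results.MP_2f88e5_nt.SuccessiveMultipliers

open Finset

/-- `m` has no prime factors `q ≤ w` -/
def Rough (w m : ℕ) : Prop := ∀ q : ℕ, q.Prime → q ≤ w → ¬ q ∣ m

/-- `2 k p + 1` is rough -/
def Mult (w p k : ℕ) : Prop := Rough w (2 * k * p + 1)

/-- the next multiplier after `k` -/
noncomputable def next (w p k : ℕ) : ℕ := sInf {m | k < m ∧ Mult w p m}

/-- the `j`-th multiplier `k_j` of `p`, with `k_0 = 0` -/
noncomputable def mult (w p j : ℕ) : ℕ := (next w p)^[j] 0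

/-- the product of `1 - 1 / q` over the primes `q ≤ w` -/
noncomputable def M (w : ℕ) : ℝ := ∏ q ∈ (Icc 1 w).filter Nat.Prime, (1 - 1 / (q : ℝ))

/-- the number of the primes `p ∈ (u, u + Y]` with `s j < k_(j + 1) - k_j ≤ T j` for all `j < l` -/
noncomputable def gapCount (w l : ℕ) (s T : ℕ → ℕ) (u Y : ℕ) : ℕ :=
  Set.ncard {p : ℕ | p.Prime ∧ u < p ∧ p ≤ u + Y ∧
    ∀ j < l, s j < mult w p (j + 1) - mult w p j ∧ mult w p (j + 1) - mult w p j ≤ T j}

/-- the number of the multipliers of `p` in the union of the intervals `(a j, b j]`, `j < J` -/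
noncomputable def multIn (w p J : ℕ) (a b : ℕ → ℕ) : ℕ :=
  Set.ncard {k : ℕ | (∃ j < J, a j < k ∧ k ≤ b j) ∧ Mult w p k}

/-- the number of the primes `p ∈ (u, u + Y]` for which the number of the multipliers in the union of the intervals
`(a j, b j]`, `j < J`, is in `A` -/
noncomputable def unionCount (w J : ℕ) (a b : ℕ → ℕ) (A : Finset ℕ) (u Y : ℕ) : ℕ :=
  Set.ncard {p : ℕ | p.Prime ∧ u < p ∧ p ≤ u + Y ∧ multIn w p J a b ∈ A}

/-- the number of the primes `p ∈ (u, u + Y]` whose multipliers `k`, `1 ≤ k ≤ L`, are exactly the elements of `S` -/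
noncomputable def patternCount (w L : ℕ) (S : Finset ℕ) (u Y : ℕ) : ℕ :=
  Set.ncard {p : ℕ | p.Prime ∧ u < p ∧ p ≤ u + Y ∧ ∀ k, 1 ≤ k → k ≤ L → (Mult w p k ↔ k ∈ S)}

/-- the number of the residue classes modulo `q` of `0` and the `2 k`, `k ∈ S` -/
def nu (S : Finset ℕ) (q : ℕ) : ℕ := (({0} ∪ S.image (fun k => 2 * k)).image (fun h => h % q)).card

/-- the product of `(q - nu S q) / (q - 1)` over the primes `q ≤ w` -/
noncomputable def singular (w : ℕ) (S : Finset ℕ) : ℝ :=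
  (∏ q ∈ (Icc 1 w).filter Nat.Prime, (1 - (nu S q : ℝ) / q)) / M w

open Pool.Agent.U98.TZ Pool.Agent.U98.TY Pool.Agent.H373R2.T7 Pool.Agent.TH464.PO Pool.Agent.R463.EX
open Pool.Agent.Y879.PR Pool.Agent.W123.RP Pool.Agent.W123.RU

lemma M_eq (w : ℕ) : M w = Vz w := rfl

lemma mult_pred (w n : ℕ) : (fun k => Sf Qi w (2 * k * n + 1)) = Mult w n := by
  funext k
  exact propext (sf_rgh w _)

lemma om_iff (w u Y : ℕ) (hw : w ≤ u) (n : ℕ) :
    n ∈ Om 1 0 Qi w u Y ↔ n.Prime ∧ u < n ∧ n ≤ u + Y := by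
  classical
  unfold Om
  rw [mem_filter, mem_Ioc, one_mul, add_zero]
  constructor
  · rintro ⟨⟨h1, h2⟩, h3, _⟩
    exact ⟨h3, h1, h2⟩
  · rintro ⟨h3, h1, h2⟩
    refine ⟨⟨h1, h2⟩, h3, ?_⟩
    rw [sf_rgh]
    intro q hq hqw hd
    have := (Nat.prime_dvd_prime_iff_eq hq h3).1 hd
    omega

open Classical in
lemma gap_eq (w l : ℕ) (s T : ℕ → ℕ) (u Y : ℕ) (hw : w ≤ u) : gapCount w l s T u Y =
    ((Om 1 0 Qi w u Y).filter (fun n => GapC l s T (fun k => Sf Qi w (2 * k * n + 1)))).card := by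
  unfold gapCount
  rw [← Set.ncard_coe_finset]
  congr 1
  ext n
  rw [Set.mem_ofPred_eq, Finset.mem_coe, mem_filter, om_iff w u Y hw, mult_pred, and_assoc, and_assoc]
  exact Iff.rfl

open Classical in
lemma union_eq (w J : ℕ) (a b : ℕ → ℕ) (A : Finset ℕ) (u Y : ℕ) (hw : w ≤ u) : unionCount w J a b A u Y =
    ((Om 1 0 Qi w u Y).filter (fun n => NM w (UI J a b) n ∈ A)).card := by
  have h1 : ∀ n, multIn w n J a b = NM w (UI J a b) n := by
    intro n
    unfold multIn NM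
    rw [← Set.ncard_coe_finset]
    congr 1
    ext k
    rw [Set.mem_ofPred_eq, Finset.mem_coe, mem_filter, mem_UI, sf_rgh]
    exact Iff.rfl
  unfold unionCount
  rw [← Set.ncard_coe_finset]
  congr 1
  ext n
  rw [Set.mem_ofPred_eq, Finset.mem_coe, mem_filter, om_iff w u Y hw, h1, and_assoc, and_assoc]

open Classical in
lemma pattern_eq (w L : ℕ) (S : Finset ℕ) (u Y : ℕ) (hw : w ≤ u) : patternCount w L S u Y = exM S L w u Y := by
  unfold patternCount exM
  rw [← Set.ncard_coe_finset]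
  congr 1
  ext n
  rw [Set.mem_ofPred_eq, Finset.mem_coe, mem_filter, om_iff w u Y hw, and_assoc, and_assoc]
  simp only [mem_Icc, sf_rgh]
  constructor
  · rintro ⟨h1, h2, h3, h4⟩
    exact ⟨h1, h2, h3, fun k hk => h4 k hk.1 hk.2⟩
  · rintro ⟨h1, h2, h3, h4⟩
    exact ⟨h1, h2, h3, fun k hk1 hk2 => h4 k ⟨hk1, hk2⟩⟩

lemma card_UI (J : ℕ) (a b : ℕ → ℕ) (hab : ∀ i j, i < j → j < J → b i ≤ a j) :
    ((UI J a b).card : ℝ) = ((∑ j ∈ range J, (b j - a j) : ℕ) : ℝ) := by
  unfold UI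
  rw [card_biUnion]
  · simp only [Nat.card_Ioc]
  · intro i hi j hj hne
    rw [Function.onFun, Finset.disjoint_left]
    intro k h1 h2
    rw [mem_Ioc] at h1 h2
    rw [Finset.mem_coe, mem_range] at hi hj
    rcases Nat.lt_or_gt_of_ne hne with h | h
    · have := hab i j h hj
      omega
    · have := hab j i h hi
      omega

lemma sing_eq (w : ℕ) (S : Finset ℕ) : Vq (QM S) w / Vz w = singular w S := by
  unfold singular
  rw [M_eq, Vq_QM]
  congr 1
  unfold Vq
  apply prod_congr rfl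
  intro q hq
  rw [nuB_QH_Qi _ q (mem_pz.1 hq).2]
  rfl

/-- the level is below the window -/
lemma level_le (δ : ℝ) (hδ : 0 < δ) (r w X u y4 : ℕ) (h4 : 1 / δ ≤ y4) (hw : y4 ≤ w) (hw1 : 1 ≤ w)
    (hX : w ^ (r + 2) ≤ X) (hu : δ * X ≤ u) : w ≤ u := by
  have h1 : 1 / δ ≤ w := h4.trans (by exact_mod_cast hw)
  rw [div_le_iff₀ hδ] at h1
  have h2 : (w : ℝ) ^ (r + 2) ≤ X := by exact_mod_cast hX
  have hwr : (1 : ℝ) ≤ w := by exact_mod_cast hw1
  have h3 : (w : ℝ) ^ 2 ≤ (w : ℝ) ^ (r + 2) := pow_le_pow_right₀ hwr (by omega)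
  have h5 : (w : ℝ) ≤ u := by
    refine le_trans ?_ hu
    calc (w : ℝ) = w * 1 := (mul_one _).symm
      _ ≤ w * (w * δ) := mul_le_mul_of_nonneg_left h1 (by positivity)
      _ = δ * (w : ℝ) ^ 2 := by ring
      _ ≤ δ * X := mul_le_mul_of_nonneg_left (h3.trans h2) hδ.le
  exact_mod_cast h5

/-- **The successive multipliers `k` with `2 k p + 1` rough, over the primes `p`, form asymptotically a Poisson
process.** -/
theorem result :
    (∀ (l : ℕ) (x ε δ : ℝ), 0 < ε → 0 < δ → δ ≤ 1 →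
      ∃ r w₀ : ℕ, ∀ w : ℕ, w₀ ≤ w → ∀ X : ℕ, w ^ r ≤ X → ∀ s T : ℕ → ℕ, (∀ j < l, s j ≤ T j) →
        2 * (∑ j ∈ range l, T j : ℕ) * M w ≤ x → ∀ u Y : ℕ, δ * X ≤ u → δ * X ≤ Y → u + Y ≤ X →
        |(gapCount w l s T u Y : ℝ) * Real.log X -
          Y * ∏ j ∈ range l, (Real.exp (-(2 * s j * M w)) - Real.exp (-(2 * T j * M w)))| ≤ ε * Y) ∧
    (∀ (J : ℕ) (x ε δ : ℝ), 0 ≤ x → 0 < ε → 0 < δ → δ ≤ 1 →
      ∃ r w₀ : ℕ, ∀ w : ℕ, w₀ ≤ w → ∀ X : ℕ, w ^ r ≤ X → ∀ (L : ℕ) (a b : ℕ → ℕ), (∀ j < J, b j ≤ L) →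
        (∀ i j, i < j → j < J → b i ≤ a j) → 2 * L * M w ≤ x → ∀ lam : ℝ,
        lam = 2 * (∑ j ∈ range J, (b j - a j) : ℕ) * M w →
        ∀ u Y : ℕ, δ * X ≤ u → δ * X ≤ Y → u + Y ≤ X → ∀ A : Finset ℕ,
        |(unionCount w J a b A u Y : ℝ) * Real.log X -
          Y * ∑ j ∈ A, Real.exp (-lam) * lam ^ j / j.factorial| ≤ ε * Y) ∧
    (∀ (g : ℕ) (x ε δ : ℝ), 0 < ε → 0 < δ → δ ≤ 1 →
      ∃ r w₀ : ℕ, ∀ w : ℕ, w₀ ≤ w → ∀ X : ℕ, w ^ r ≤ X → ∀ (L : ℕ) (S : Finset ℕ), S.card = g → S ⊆ Icc 1 L →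
        2 * L * M w ≤ x → ∀ u Y : ℕ, δ * X ≤ u → δ * X ≤ Y → u + Y ≤ X →
        |(patternCount w L S u Y : ℝ) * Real.log X - Y * singular w S * Real.exp (-(2 * L * M w))| ≤
          ε * (Y * singular w S * Real.exp (-(2 * L * M w)))) := by
  refine ⟨?_, ?_, ?_⟩
  · intro l x ε δ hε hδ hδ1
    obtain ⟨r, y0, h⟩ := succM l x ε δ hε hδ hδ1
    obtain ⟨y4, hy4⟩ : ∃ y4 : ℕ, 1 / δ ≤ y4 := exists_nat_ge _
    refine ⟨r + 2, y0 + y4 + 1, ?_⟩
    intro w hw X hX s T hsT hx u Y hu hY huY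
    have hwu := level_le δ hδ r w X u y4 hy4 (by omega) (by omega) hX hu
    rw [gap_eq w l s T u Y hwu]
    exact h w (by omega) X ((Nat.pow_le_pow_right (by omega) (by omega)).trans hX) s T hsT hx u Y hu hY huY
  · intro J x ε δ hx hε hδ hδ1
    obtain ⟨r, y0, h⟩ := unionM J x ε δ hx hε hδ hδ1
    obtain ⟨y4, hy4⟩ : ∃ y4 : ℕ, 1 / δ ≤ y4 := exists_nat_ge _
    refine ⟨r + 2, y0 + y4 + 1, ?_⟩
    intro w hw X hX L a b hb hab hL lam hlam u Y hu hY huY A
    have hwu := level_le δ hδ r w X u y4 hy4 (by omega) (by omega) hX hu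
    rw [union_eq w J a b A u Y hwu, hlam, ← card_UI J a b hab]
    exact h w (by omega) X ((Nat.pow_le_pow_right (by omega) (by omega)).trans hX) L a b hb hab hL u Y hu hY huY A
  · intro g x ε δ hε hδ hδ1
    obtain ⟨r, y0, h⟩ := pattM g x ε δ hε hδ hδ1
    obtain ⟨y4, hy4⟩ : ∃ y4 : ℕ, 1 / δ ≤ y4 := exists_nat_ge _
    refine ⟨r + 2, y0 + y4 + 1, ?_⟩
    intro w hw X hX L S hSg hS hL u Y hu hY huY
    have hwu := level_le δ hδ r w X u y4 hy4 (by omega) (by omega) hX hu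
    rw [pattern_eq w L S u Y hwu, ← sing_eq]
    exact h w (by omega) X ((Nat.pow_le_pow_right (by omega) (by omega)).trans hX) L S hSg hS hL u Y hu hY huY

end Pool.Agent.Results.MP_2f88e5_nt.SuccessiveMultipliers
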